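import Pool.Agent.H17.BD.Final

/-!
# MP_901665_lc: uniform bounds on test sets with respect to homomorphisms of bounded delay

Every language over an `n`-letter alphabet has a test set with at most
`2 (2n + n ^ (2s+2)) + n` words with respect to all pairs of conjugates of homomorphisms of
deciphering delay at most `s` (more generally, all pairs of homomorphisms which separate words with
look-ahead `s`), their mirror images, and pairs with a periodic and an injective, or two periodic,
homomorphisms.

The proof: in the equality set of such a pair, the first `s + 1` letters of the two branches of two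
words of the set after a common prefix determine the difference of the lengths of the images of this
prefix, and hence, up to the exchange of continuations, the branching.  For a ladder of languages
and pairs, consider the intersections of the final parts of the sequence of the equality sets.  If
neither the dimension of the space orthogonal to the weights, nor the set of branching types, nor
the set of first letters grows, then the intersection does not grow; so ladders are bounded.
-/

namespace Pool.Agent.Results.MP_901665_lc.BoundedDelay

open H17.BD FreeMonoid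

/-- `g` separates words with look-ahead `s`: if two words `α`, `β` of length `s + 1` have different
first letters, then there are numbers `ℓ` and `N` such that for all words `x`, `y` of length at
least `N` the images of `α x` and `β y` agree on exactly their first `ℓ` letters and differ
in the next letter. -/
def Separates {A B : Type} (s : ℕ) (g : FreeMonoid A →* FreeMonoid B) : Prop :=
  ∀ α β : FreeMonoid A, α.length = s + 1 → β.length = s + 1 →
    (toList α).head? ≠ (toList β).head? →
    ∃ l N : ℕ, ∀ x y : FreeMonoid A, N ≤ x.length → N ≤ y.length →
      ∃ (z u v : FreeMonoid B) (b c : B), z.length = l ∧ b ≠ c ∧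
        g (α * x) = z * of b * u ∧ g (β * y) = z * of c * v

/-- `g` has deciphering delay at most `s`: if two words `α`, `β` of length `s + 1` have different
first letters, then the image of `α` is not a prefix of the image of `β`. -/
def Delay {A B : Type} (s : ℕ) (g : FreeMonoid A →* FreeMonoid B) : Prop :=
  ∀ α β : FreeMonoid A, α.length = s + 1 → β.length = s + 1 →
    (toList α).head? ≠ (toList β).head? → ¬ ∃ t : FreeMonoid B, g α * t = g β

/-- The mirror image of `g`: the images of the letters are reversed. -/
def mirror {A B : Type} (g : FreeMonoid A →* FreeMonoid B) : FreeMonoid A →* FreeMonoid B :=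
  lift (fun a => reverse (g (of a)))

/-- `g` is periodic: all images are powers of one word. -/
def Periodic {A B : Type} (g : FreeMonoid A →* FreeMonoid B) : Prop :=
  ∃ ρ : FreeMonoid B, ∀ x, ∃ k : ℕ, g x = ρ ^ k

/-- `g` separates words with look-ahead `s`, or it is conjugate to a homomorphism `g'` of
deciphering delay at most `s`, that is, `g(a) z = z g'(a)` for all letters `a` and some word `z`
(`z` may be empty, and then `g = g'`). -/
def Fine {A B : Type} (s : ℕ) (g : FreeMonoid A →* FreeMonoid B) : Prop :=
  Separates s g ∨ ∃ (g' : FreeMonoid A →* FreeMonoid B) (z : FreeMonoid B),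
    Delay s g' ∧ ∀ a, g (of a) * z = z * g' (of a)

/-- The pairs of homomorphisms which are considered: both are fine, or both mirror images are fine,
or each is injective or periodic and at least one is periodic. -/
def Tame {A B : Type} (s : ℕ) (g h : FreeMonoid A →* FreeMonoid B) : Prop :=
  (Fine s g ∧ Fine s h) ∨ (Fine s (mirror g) ∧ Fine s (mirror h)) ∨
  ((Function.Injective g ∨ Periodic g) ∧ (Function.Injective h ∨ Periodic h) ∧
    (Periodic g ∨ Periodic h))

section bridge

variable {A B : Type}

/-- letter images as lists -/
private def im (g : FreeMonoid A →* FreeMonoid B) (a : A) : List B := toList (g (of a))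

private lemma hom_flatMap (g : FreeMonoid A →* FreeMonoid B) (y : FreeMonoid A) :
    toList (g y) = (toList y).flatMap (im g) := by
  induction y using FreeMonoid.inductionOn' with
  | one => simp
  | of_mul a y ih =>
    rw [map_mul, toList_mul, ih, toList_of_mul, List.flatMap_cons]
    rfl

private lemma hom_ofList (g : FreeMonoid A →* FreeMonoid B) (x : List A) :
    toList (g (ofList x)) = x.flatMap (im g) := by
  rw [hom_flatMap, toList_ofList]

private lemma head_ofFn {s : ℕ} (α : Fin (s + 1) → A) : (List.ofFn α).head? = some (α 0) := by
  rw [List.ofFn_succ]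
  rfl

private lemma sep_bridge {s : ℕ} {g : FreeMonoid A →* FreeMonoid B} (h : Separates s g) :
    Sep s (im g) := by
  intro α β hαβ
  obtain ⟨l, N, hl⟩ := h (ofList (List.ofFn α)) (ofList (List.ofFn β))
    (by show (List.ofFn α).length = s + 1; simp) (by show (List.ofFn β).length = s + 1; simp)
    (by rw [toList_ofList, toList_ofList, head_ofFn, head_ofFn]; simpa using hαβ)
  refine ⟨l, N, fun x y hx hy => ?_⟩
  obtain ⟨z, u, v, b, c, hz, hbc, e1, e2⟩ := hl (ofList x) (ofList y) hx hy
  refine ⟨toList z, b, c, toList u, toList v, hz, hbc, ?_, ?_⟩
  · have := congrArg toList e1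
    rw [← ofList_append, hom_ofList, toList_mul, toList_mul, toList_of] at this
    simpa using this
  · have := congrArg toList e2
    rw [← ofList_append, hom_ofList, toList_mul, toList_mul, toList_of] at this
    simpa using this

private lemma im_mirror (g : FreeMonoid A →* FreeMonoid B) : im (mirror g) = mir (im g) := by
  funext a
  show toList (lift (fun a => reverse (g (of a))) (of a)) = (toList (g (of a))).reverse
  rw [lift_eval_of]
  rfl

private lemma toList_pow' (x : FreeMonoid B) (k : ℕ) :
    toList (x ^ k) = (List.replicate k (toList x)).flatten := by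
  induction k with
  | zero => simp
  | succ k ih =>
    rw [pow_succ', toList_mul, ih, List.replicate_succ, List.flatten_cons]

private lemma per_bridge {g : FreeMonoid A →* FreeMonoid B} (h : Periodic g) : Per (im g) := by
  obtain ⟨ρ, hρ⟩ := h
  refine ⟨toList ρ, fun a => ?_⟩
  obtain ⟨k, hk⟩ := hρ (of a)
  exact ⟨k, by show toList (g (of a)) = _; rw [hk, toList_pow']⟩

private lemma inj_bridge {g : FreeMonoid A →* FreeMonoid B} (h : Function.Injective g) :
    Inj (im g) := by
  intro x y hxy
  have h1 : g (ofList x) = g (ofList y) := by
    apply toList.injective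
    rw [hom_ofList, hom_ofList, hxy]
  exact ofList.injective (h h1)

private lemma del_bridge {s : ℕ} {g : FreeMonoid A →* FreeMonoid B} (h : Delay s g) :
    Del s (im g) := by
  intro α β hαβ hpre
  obtain ⟨t, ht⟩ := hpre
  apply h (ofList (List.ofFn α)) (ofList (List.ofFn β))
    (by show (List.ofFn α).length = s + 1; simp) (by show (List.ofFn β).length = s + 1; simp)
    (by rw [toList_ofList, toList_ofList, head_ofFn, head_ofFn]; simpa using hαβ)
  refine ⟨ofList t, toList.injective ?_⟩
  rw [toList_mul, hom_ofList, hom_ofList, toList_ofList, ht]

private lemma fine_bridge {s : ℕ} {g : FreeMonoid A →* FreeMonoid B} (h : Fine s g) :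
    Sep s (im g) := by
  rcases h with h | ⟨g', z, hd, hz⟩
  · exact sep_bridge h
  · refine sep_of_del (w' := im g') (z := toList z) (fun a => ?_) (del_bridge hd)
    have := congrArg toList (hz a)
    rw [toList_mul, toList_mul] at this
    exact this

private lemma good_bridge {s : ℕ} {g h : FreeMonoid A →* FreeMonoid B} (hgh : Tame s g h) :
    Good s (im g) (im h) := by
  rcases hgh with ⟨a, b⟩ | ⟨a, b⟩ | ⟨a, b, c⟩
  · exact Or.inl ⟨fine_bridge a, fine_bridge b⟩
  · refine Or.inr (Or.inl ⟨?_, ?_⟩)
    · rw [← im_mirror]; exact fine_bridge a
    · rw [← im_mirror]; exact fine_bridge b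
  · rcases c with c | c
    · rcases b with b | b
      · exact Or.inr (Or.inr (Or.inr (Or.inl ⟨per_bridge c, inj_bridge b⟩)))
      · exact Or.inr (Or.inr (Or.inr (Or.inr ⟨per_bridge c, per_bridge b⟩)))
    · rcases a with a | a
      · exact Or.inr (Or.inr (Or.inl ⟨inj_bridge a, per_bridge c⟩))
      · exact Or.inr (Or.inr (Or.inr (Or.inr ⟨per_bridge a, per_bridge c⟩)))

end bridge

/-- **Uniform test sets with respect to homomorphisms of bounded delay.** -/
theorem result (n s : ℕ) (A : Type) [Fintype A] (hA : Fintype.card A = n)
    (L : Set (FreeMonoid A)) :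
    ∃ F : Finset (FreeMonoid A), (↑F : Set (FreeMonoid A)) ⊆ L ∧
      F.card ≤ 2 * (2 * n + n ^ (2 * s + 2)) + n ∧
      ∀ (B : Type) (g h : FreeMonoid A →* FreeMonoid B), Tame s g h →
        (∀ x ∈ F, g x = h x) → ∀ x ∈ L, g x = h x := by
  classical
  subst hA
  obtain ⟨F, hFL, hFc, hF⟩ := final_list s (toList '' L)
  refine ⟨F.image ofList, ?_, Finset.card_image_le.trans hFc, ?_⟩
  · intro x hx
    obtain ⟨y, hy, rfl⟩ := Finset.mem_image.mp (Finset.mem_coe.mp hx)
    obtain ⟨x, hxL, hxy⟩ := hFL hy
    rw [← hxy, ofList_toList]
    exact hxL
  · intro B g h hgh hagr x hx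
    have h1 := hF B (im g) (im h) (good_bridge hgh) (fun f hf => by
      show f.flatMap (im g) = f.flatMap (im h)
      rw [← hom_ofList, ← hom_ofList, hagr _ (Finset.mem_image_of_mem _ hf)])
      (toList x) ⟨x, hx, rfl⟩
    have h2 : (toList x).flatMap (im g) = (toList x).flatMap (im h) := h1
    apply toList.injective
    rw [hom_flatMap, hom_flatMap, h2]

end Pool.Agent.Results.MP_901665_lc.BoundedDelay
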