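import Pool.Agent.H33.BP.AgreeL2

/-!
# MP_901665_lc: uniform test sets for pairs of bounded lag, and for languages near their span

Every language over an `n`-letter alphabet has a subset `F` of at most `k(n, s)` words which is a
test set with respect to all pairs of homomorphisms `g`, `h` with lag at most `s`:
`|g(u)| ≤ |h(uw)|` and `|h(u)| ≤ |g(uw)|` for all words `uwv` of the language with `|w| = s`.
If for all these `u`, `w` some vector of the rational span of the Parikh vectors of the language
is between the Parikh vectors of `u` and `uw`, then `F` is a test set with respect to all pairs.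

The proof: look at the windows, the factors of length `10 s + 1`.  A window is flexible if it occurs
in the chosen words with two different overflows; then the image of the window is periodic with
a small period.  Otherwise it is rigid.  For every set `Φ` of windows words are chosen such that the
Parikh vectors of the factors between two windows which have only windows from `Φ` between them
span affinely all such Parikh vectors; so the overflow at a rigid window is the same in all words of
the language, and the two images match there.  In a run of flexible windows the match is carried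
from window to window: two periods of a factor are transferred to the whole window.
-/

namespace Pool.Agent.Results.MP_901665_lc.BoundedLag

open H33.BP FreeMonoid

/-- The lag of the pair `g`, `h` on the words of `L` is at most `s` letters. -/
def Lag {A B : Type} (s : ℕ) (L : Set (FreeMonoid A)) (g h : FreeMonoid A →* FreeMonoid B) :
    Prop :=
  ∀ u w v : FreeMonoid A, u * w * v ∈ L → w.length = s →
    (g u).length ≤ (h (u * w)).length ∧ (h u).length ≤ (g (u * w)).length

open Classical in
/-- The Parikh vector of a word. -/
noncomputable def parikh {A : Type} (x : FreeMonoid A) : A → ℚ :=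
  fun a => ((toList x).count a : ℚ)

/-- For every factor `w` of length `s` of a word `uwv` of `L` some vector of the span of the Parikh
vectors of the words of `L` is between the Parikh vectors of `u` and `uw`. -/
def NearSpan {A : Type} (s : ℕ) (L : Set (FreeMonoid A)) : Prop :=
  ∀ u w v : FreeMonoid A, u * w * v ∈ L → w.length = s →
    ∃ y ∈ Submodule.span ℚ (parikh '' L), ∀ a, parikh u a ≤ y a ∧ y a ≤ parikh (u * w) a

private lemma hom_flatMap {A B : Type} (g : FreeMonoid A →* FreeMonoid B) (y : FreeMonoid A) :
    toList (g y) = (toList y).flatMap (fun a => toList (g (of a))) := by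
  induction y using FreeMonoid.inductionOn' with
  | one => simp
  | of_mul a y ih =>
    rw [map_mul, toList_mul, ih, toList_of_mul, List.flatMap_cons]

/-- letter images as lists -/
private def lt {A B : Type} (g : FreeMonoid A →* FreeMonoid B) (a : A) : List B :=
  toList (g (of a))

private lemma im_eq {A B : Type} (g : FreeMonoid A →* FreeMonoid B) (x : List A) :
    im (lt g) x = toList (g (ofList x)) := by
  rw [hom_flatMap, toList_ofList]
  rfl

private lemma ln_eq {A B : Type} (g : FreeMonoid A →* FreeMonoid B) (x : List A) :
    ln (lt g) x = ((g (ofList x)).length : ℤ) := by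
  unfold ln
  rw [im_eq]
  rfl

private lemma ob_of {A B : Type} {s : ℕ} {L : Set (FreeMonoid A)}
    {g h : FreeMonoid A →* FreeMonoid B} (hb : Lag s L g h) :
    ∀ x ∈ toList '' L, OB s (lt g) (lt h) x 0 := by
  rintro x ⟨y, hy, rfl⟩ j hj
  set x := toList y with hx
  have e1 : y = ofList (x.take j) * ofList ((x.drop j).take s) * ofList (x.drop (j + s)) := by
    rw [← ofList_append, ← ofList_append]
    have : x.take j ++ (x.drop j).take s ++ x.drop (j + s) = x := (win_split s x j).symm
    rw [this, hx, ofList_toList]
  have hlen : (ofList ((x.drop j).take s)).length = s := by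
    show ((x.drop j).take s).length = s
    rw [List.length_take, List.length_drop]
    omega
  have h1 := hb _ _ _ (e1 ▸ hy) hlen
  rw [← ofList_append] at h1
  have e2 : x.take j ++ (x.drop j).take s = x.take (j + s) := by
    rw [List.take_add]
  rw [e2] at h1
  obtain ⟨h2, h3⟩ := h1
  have f1 := ln_eq g (x.take j)
  have f2 := ln_eq h (x.take j)
  have f4 := ln_eq g (x.take (j + s))
  have f5 := ln_eq h (x.take (j + s))
  constructor <;> omega

/-- the length of an image and the Parikh vector -/
private lemma length_eq {A B : Type} [Fintype A] (g : FreeMonoid A →* FreeMonoid B)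
    (x : FreeMonoid A) :
    ((g x).length : ℚ) = ∑ a, ((g (of a)).length : ℚ) * parikh x a := by
  have h1 := ln_count (lt g) (toList x)
  rw [ln_eq, ofList_toList] at h1
  push_cast at h1
  rw [h1]
  rfl

private lemma lag_of_near {A B : Type} [Fintype A] {s : ℕ} {L : Set (FreeMonoid A)}
    {g h : FreeMonoid A →* FreeMonoid B} (hL : NearSpan s L)
    (hl : ∀ x ∈ L, (g x).length = (h x).length) : Lag s L g h := by
  intro u w v hx hw
  obtain ⟨y, hy, hyy⟩ := hL u w v hx hw
  have key : ∑ a, ((g (of a)).length : ℚ) * y a = ∑ a, ((h (of a)).length : ℚ) * y a := by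
    clear hyy
    induction hy using Submodule.span_induction with
    | mem z hz =>
      obtain ⟨x, hx, rfl⟩ := hz
      rw [← length_eq, ← length_eq, hl x hx]
    | zero => simp
    | add z z' _ _ h1 h2 =>
      simp only [Pi.add_apply, mul_add, Finset.sum_add_distrib]
      rw [h1, h2]
    | smul c z _ h1 =>
      simp only [Pi.smul_apply, smul_eq_mul]
      have e : ∀ k : FreeMonoid A →* FreeMonoid B,
          ∑ a, ((k (of a)).length : ℚ) * (c * z a) = c * ∑ a, ((k (of a)).length : ℚ) * z a := by
        intro k
        rw [Finset.mul_sum]
        exact Finset.sum_congr rfl (fun a _ => by ring)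
      rw [e g, e h, h1]
  have mono1 : ∀ k : FreeMonoid A →* FreeMonoid B,
      ((k u).length : ℚ) ≤ ∑ a, ((k (of a)).length : ℚ) * y a := by
    intro k
    rw [length_eq]
    exact Finset.sum_le_sum (fun a _ => mul_le_mul_of_nonneg_left (hyy a).1 (by positivity))
  have mono2 : ∀ k : FreeMonoid A →* FreeMonoid B,
      ∑ a, ((k (of a)).length : ℚ) * y a ≤ ((k (u * w)).length : ℚ) := by
    intro k
    rw [length_eq]
    exact Finset.sum_le_sum (fun a _ => mul_le_mul_of_nonneg_left (hyy a).2 (by positivity))
  constructor
  · have h1 := (mono1 g).trans (key.le.trans (mono2 h))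
    exact_mod_cast h1
  · have h1 := (mono1 h).trans (key.ge.trans (mono2 g))
    exact_mod_cast h1

open Classical in
/-- Example (not used in the proof): all letters are equally frequent in each word of `L` and any
two letters are equally frequent up to `r` in each prefix. -/
theorem nearSpan_of_balanced {A : Type} [Fintype A] (r s : ℕ) (L : Set (FreeMonoid A))
    (hs : 2 * r * Fintype.card A ≤ s)
    (heq : ∀ x ∈ L, ∀ a b, (toList x).count a = (toList x).count b)
    (hr : ∀ u v : FreeMonoid A, u * v ∈ L → ∀ a b, (toList u).count a ≤ (toList u).count b + r) :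
    NearSpan s L := by
  have hsum : ∀ l : List A, ∑ a, ((l.count a : ℕ) : ℚ) = (l.length : ℚ) := by
    intro l
    have h1 := ln_count (fun _ : A => [()]) l
    have h2 : ∀ l : List A, ln (fun _ : A => [()]) l = (l.length : ℤ) := by
      intro l
      induction l with
      | nil => simp [ln]
      | cons a l ih =>
        have h3 : ln (fun _ : A => [()]) (a :: l) = ln (fun _ : A => [()]) [a] +
          ln (fun _ : A => [()]) l := ln_append _ [a] l
        rw [h3, ih]
        simp [ln]
        ring
    rw [h2] at h1
    push_cast at h1
    rw [h1]
    exact Finset.sum_congr rfl (fun a _ => by simp)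
  intro u w v hx hw
  by_cases hA : IsEmpty A
  · exact ⟨0, Submodule.zero_mem _, fun a => hA.elim a⟩
  rw [not_isEmpty_iff] at hA
  obtain ⟨a0⟩ := hA
  have hn : (0 : ℚ) < Fintype.card A := by
    have : 0 < Fintype.card A := Fintype.card_pos_iff.mpr ⟨a0⟩
    exact_mod_cast this
  set n : ℚ := ((Fintype.card A : ℕ) : ℚ) with hndef
  by_cases hx0 : (toList (u * w * v)).count a0 = 0
  · have hl : (toList (u * w * v)).length = 0 := by
      have h1 := hsum (toList (u * w * v))
      have h2 : ∑ a, (((toList (u * w * v)).count a : ℕ) : ℚ) = 0 :=
        Finset.sum_eq_zero (fun a _ => by rw [heq _ hx a a0, hx0]; simp)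
      rw [h2] at h1
      exact_mod_cast h1.symm
    have hl2 : (toList u).length = 0 ∧ (toList w).length = 0 := by
      rw [toList_mul, toList_mul, List.length_append, List.length_append] at hl
      omega
    have hu : toList u = [] := List.length_eq_zero_iff.mp hl2.1
    have hw' : toList w = [] := List.length_eq_zero_iff.mp hl2.2
    refine ⟨0, Submodule.zero_mem _, fun a => ?_⟩
    unfold parikh
    rw [toList_mul, hu, hw']
    simp
  · refine ⟨fun _ => ((toList u).length : ℚ) / n + r, ?_, ?_⟩
    · have h1 : (fun _ : A => ((toList u).length : ℚ) / n + r) =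
          ((((toList u).length : ℚ) / n + r) / ((toList (u * w * v)).count a0 : ℚ)) •
            parikh (u * w * v) := by
        funext a
        unfold parikh
        rw [Pi.smul_apply, smul_eq_mul, heq _ hx a a0]
        have : ((toList (u * w * v)).count a0 : ℚ) ≠ 0 := by exact_mod_cast hx0
        field_simp
      rw [h1]
      exact Submodule.smul_mem _ _ (Submodule.subset_span ⟨_, hx, rfl⟩)
    · intro a
      have hcard : ∀ c : ℚ, ∑ _b : A, c = n * c := by
        intro c
        rw [Finset.sum_const, Finset.card_univ, nsmul_eq_mul]
      have k1 : n * ((toList u).count a : ℚ) ≤ ((toList u).length : ℚ) + n * r := by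
        rw [← hsum (toList u), ← hcard, ← hcard, ← Finset.sum_add_distrib]
        refine Finset.sum_le_sum (fun b _ => ?_)
        have := hr u (w * v) (by rw [← mul_assoc]; exact hx) a b
        exact_mod_cast this
      have k2 : ((toList (u * w)).length : ℚ) ≤ n * ((toList (u * w)).count a : ℚ) + n * r := by
        rw [← hsum (toList (u * w)), ← mul_add, ← hcard]
        refine Finset.sum_le_sum (fun b _ => ?_)
        have := hr (u * w) v hx b a
        exact_mod_cast this
      have k3 : ((toList (u * w)).length : ℚ) = ((toList u).length : ℚ) + s := by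
        have : (toList w).length = s := hw
        rw [toList_mul, List.length_append, this]
        push_cast
        rfl
      have k4 : 2 * r * n ≤ s := by
        rw [hndef]
        exact_mod_cast hs
      unfold parikh
      constructor
      · rw [← sub_le_iff_le_add, le_div_iff₀ hn]
        linarith
      · rw [← le_sub_iff_add_le, div_le_iff₀ hn]
        linarith

/-- **Uniform test sets with respect to pairs of bounded lag.** -/
theorem result (n s : ℕ) (hs : 1 ≤ s) (A : Type) [Fintype A] (hA : Fintype.card A = n)
    (L : Set (FreeMonoid A)) :
    ∃ F : Finset (FreeMonoid A), (↑F : Set (FreeMonoid A)) ⊆ L ∧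
      F.card ≤ (n + 1) ^ (10 * s + 1) + n + n ^ (10 * s + 1) +
        2 ^ (n ^ (10 * s + 1)) * (n ^ (10 * s + 1) + 1) * n ^ (10 * s + 1) * (n + 1) ∧
      (∀ (B : Type) (g h : FreeMonoid A →* FreeMonoid B), Lag s L g h →
        (∀ x ∈ F, g x = h x) → ∀ x ∈ L, g x = h x) ∧
      (NearSpan s L → ∀ (B : Type) (g h : FreeMonoid A →* FreeMonoid B),
        (∀ x ∈ F, g x = h x) → ∀ x ∈ L, g x = h x) := by
  classical
  subst hA
  obtain ⟨F, hFL, hFc, hF⟩ := list_form (A := A) s hs (toList '' L)
  have key : ∀ (B : Type) (g h : FreeMonoid A →* FreeMonoid B),
      ((∀ x ∈ L, (g x).length = (h x).length) → Lag s L g h) →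
      (∀ x ∈ F.image ofList, g x = h x) → ∀ x ∈ L, g x = h x := by
    intro B g h hb hagr x hx
    have h1 := hF B (lt g) (lt h) (fun hl => ob_of (hb (fun y hy => by
        have h2 := hl (toList y) ⟨y, hy, rfl⟩
        rw [ln_eq, ln_eq, ofList_toList] at h2
        exact_mod_cast h2)))
      (fun z hz => by
        rw [im_eq, im_eq, hagr _ (Finset.mem_image_of_mem _ hz)])
      (toList x) ⟨x, hx, rfl⟩
    rw [im_eq, im_eq, ofList_toList] at h1
    exact toList.injective h1
  refine ⟨F.image ofList, ?_, Finset.card_image_le.trans hFc, ?_, ?_⟩
  · intro x hx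
    obtain ⟨y, hy, rfl⟩ := Finset.mem_image.mp (Finset.mem_coe.mp hx)
    obtain ⟨x, hxL, hxy⟩ := hFL y hy
    rw [← hxy, ofList_toList]
    exact hxL
  · intro B g h hlag
    exact key B g h (fun _ => hlag)
  · intro hnear B g h
    exact key B g h (fun hl => lag_of_near hnear hl)

end Pool.Agent.Results.MP_901665_lc.BoundedLag
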