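import Pool.Agent.H17.MV.Final

/-!
# MP_901665_lc: uniform test sets for languages in which a factor can be moved

Let `P` be a set of at most `r` words over an `n`-letter alphabet and let `L` be a language.  Then
there are at most `r (2n + 2^(n+2) (n+1)^3)` words in `L` such that any two homomorphisms which agree
on these words agree on every word of `L` which has a factor `p` in `P` that is not erased by the
homomorphisms and can be moved to every other place without leaving `L`.  So if every word of `L` has
a factor from `P` which can be moved inside `L`, then these words are a test set for `L` with respect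
to all pairs of nonerasing homomorphisms.

The proof: words are embedded into the affine group of a field.  If `u p d v` and `u d p v` are in
`L`, `g` and `h` agree on both and `g p`, `g d` do not commute, then `(g u)⁻¹ (h u)` depends on the
letter `d` only (compare the places where the images of the two words differ for the first time).
Between two such letters there is a word `w` of letters which commute with `p` under `g` and `h`, so
`g w` and `h w` have the fixed points of `g p` and `h p`; the agreement is a condition
`X (h w) = (g w) Y`, which is affine linear in the Parikh vector of `w`.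
-/

namespace Pool.Agent.Results.MP_901665_lc.MovedFactor

open H17 FreeMonoid

/-- The word `x` has the form `u p v` and `p` can be moved inside `L`: all words `u' p v'` with
`u' v' = u v` are in `L`. -/
def Moves {A : Type} (L : Set (FreeMonoid A)) (p x : FreeMonoid A) : Prop :=
  ∃ u v : FreeMonoid A, x = u * p * v ∧
    ∀ u' v' : FreeMonoid A, u' * v' = u * v → u' * p * v' ∈ L

private lemma hom_flatMap {A B : Type} (g : FreeMonoid A →* FreeMonoid B) (y : FreeMonoid A) :
    toList (g y) = (toList y).flatMap (fun a => toList (g (of a))) := by
  induction y using FreeMonoid.inductionOn' with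
  | one => simp
  | of_mul a y ih =>
    rw [map_mul, toList_mul, ih, toList_of_mul, List.flatMap_cons]

/-- the pair as a pair of maps to lists -/
private def pr {A B : Type} (g h : FreeMonoid A →* FreeMonoid B) : MV.Pr A :=
  ⟨B, fun a => toList (g (of a)), fun a => toList (h (of a))⟩

private lemma ag_iff {A B : Type} (g h : FreeMonoid A →* FreeMonoid B) (x : FreeMonoid A) :
    MV.Ag (pr g h) (toList x) ↔ g x = h x := by
  unfold MV.Ag pr
  simp only
  rw [← hom_flatMap, ← hom_flatMap]
  exact ⟨fun h => toList.injective h, fun h => by rw [h]⟩

/-- **Uniform test sets for languages in which a factor can be moved.** -/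
theorem result (n r : ℕ) (A : Type) [Fintype A] (hA : Fintype.card A = n)
    (P : Finset (FreeMonoid A)) (hP : P.card ≤ r) (L : Set (FreeMonoid A)) :
    ∃ F : Finset (FreeMonoid A), (↑F : Set (FreeMonoid A)) ⊆ L ∧
      F.card ≤ r * (2 * n + 2 ^ (n + 2) * (n + 1) ^ 3) ∧
      ∀ (B : Type) (g h : FreeMonoid A →* FreeMonoid B), (∀ x ∈ F, g x = h x) →
        ∀ x ∈ L, (∃ p ∈ P, g p ≠ 1 ∧ h p ≠ 1 ∧ Moves L p x) → g x = h x := by
  classical
  subst hA
  have h1 : ∀ p : FreeMonoid A, ∃ F : Finset (List A), (F : Set (List A)) ⊆ toList '' L ∧
      F.card ≤ 2 * Fintype.card A + 2 ^ (Fintype.card A + 2) * (Fintype.card A + 1) ^ 3 ∧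
      ∀ π : MV.Pr A, (toList p).flatMap π.g ≠ [] → (toList p).flatMap π.h ≠ [] →
        (∀ x ∈ F, MV.Ag π x) → ∀ y : List A, MV.Slide (toList '' L) (toList p) y →
        ∀ y1 y2 : List A, y = y1 ++ y2 → MV.Ag π (y1 ++ (toList p ++ y2)) :=
    fun p => MV.one_factor (toList '' L) (toList p)
  choose F hF1 hF2 hF3 using h1
  refine ⟨P.biUnion (fun p => (F p).image ofList), ?_, ?_, ?_⟩
  · intro x hx
    obtain ⟨p, -, hx⟩ := Finset.mem_biUnion.mp (Finset.mem_coe.mp hx)
    obtain ⟨y, hy, rfl⟩ := Finset.mem_image.mp hx
    obtain ⟨x, hxL, hxy⟩ := hF1 p hy
    rw [← hxy, ofList_toList]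
    exact hxL
  · refine Finset.card_biUnion_le.trans ((Finset.sum_le_card_nsmul _ _ _ (fun p _ =>
      Finset.card_image_le.trans (hF2 p))).trans ?_)
    rw [smul_eq_mul]
    exact Nat.mul_le_mul_right _ hP
  · intro B g h hagr x _ hx
    obtain ⟨p, hp, hgp, hhp, u, v, hxe, hmove⟩ := hx
    have h2 : (toList p).flatMap (pr g h).g ≠ [] := by
      intro hcon
      apply hgp
      apply toList.injective
      rw [hom_flatMap]
      exact hcon
    have h3 : (toList p).flatMap (pr g h).h ≠ [] := by
      intro hcon
      apply hhp
      apply toList.injective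
      rw [hom_flatMap]
      exact hcon
    have h4 := hF3 p (pr g h) h2 h3 (fun z hz => by
      have h5 := hagr (ofList z) (Finset.mem_biUnion.mpr ⟨p, hp, Finset.mem_image_of_mem _ hz⟩)
      rw [← ag_iff, toList_ofList] at h5
      exact h5) (toList u ++ toList v) (by
      intro y1 y2 hy
      refine ⟨ofList y1 * p * ofList y2, hmove _ _ ?_, ?_⟩
      · apply toList.injective
        rw [toList_mul, toList_mul, toList_ofList, toList_ofList, hy]
      · rw [toList_mul, toList_mul, toList_ofList, toList_ofList, List.append_assoc])
      (toList u) (toList v) rfl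
    rw [← ag_iff, hxe, toList_mul, toList_mul, List.append_assoc]
    exact h4

end Pool.Agent.Results.MP_901665_lc.MovedFactor
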