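import Pool.Agent.H17.WT.Final

/-!
# MP_901665_lc: uniform bounds on test sets for words of bounded power size

For all `n` and `s` there is `k` such that every language `L` over every alphabet `A`, all of whose
words are images `φ y`, under one fixed homomorphism `φ` from the free monoid on `n` letters, of
words `y` with a power expression of size at most `s`, has a test set with at most `k` words.

The proof: the Laurent series of the image of a word with a power expression of a given shape is a
fraction of two exponential sums `∑ α_j(w) T ^ ⟨p_j(x), q(w)⟩`.  The zeros of an exponential sum with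
`m` terms form a union of boundedly many affine flats (the minimum order is attained twice; merge
the two terms), and a ladder of unions of boundedly many flats in a space of dimension `d` is
bounded (pigeonhole and descent in the dimension).  A longest ladder is a test set.
-/

namespace Pool.Agent.Results.MP_901665_lc.PowerExpressions

open H17WT

/-- `PowSize s x`: the word `x` is the value of a power expression with `s` operations, where an
expression is built from the empty word (size `0`) and the letters (size `1`) by concatenation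
(sizes add) and by taking powers with arbitrary exponents `k ≥ 0` (size increases by `1`).  Powers
may be nested. -/
inductive PowSize {A : Type} : ℕ → FreeMonoid A → Prop
  | one : PowSize 0 1
  | of (a : A) : PowSize 1 (FreeMonoid.of a)
  | mul {s t : ℕ} {x y : FreeMonoid A} : PowSize s x → PowSize t y → PowSize (s + t) (x * y)
  | pow {s : ℕ} {x : FreeMonoid A} (k : ℕ) : PowSize s x → PowSize (s + 1) (x ^ k)

private lemma toList_pow {A : Type} (x : FreeMonoid A) (k : ℕ) :
    FreeMonoid.toList (x ^ k) = (List.replicate k (FreeMonoid.toList x)).flatten := by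
  induction k with
  | zero => simp
  | succ k ih =>
    rw [pow_succ', FreeMonoid.toList_mul, ih, List.replicate_succ, List.flatten_cons]

private lemma shape_of {n s : ℕ} {y : FreeMonoid (Fin n)} (h : PowSize s y) :
    FreeMonoid.toList y = [] ∨ ∃ τ : Sh n, τ.size ≤ s ∧ ∃ x : Ex τ,
      val τ x = FreeMonoid.toList y := by
  induction h with
  | one => left; rfl
  | of a => right; exact ⟨Sh.letter a, le_rfl, (), rfl⟩
  | @mul s t x y _ _ ihx ihy =>
    rcases ihx with h1 | ⟨τ1, hs1, x1, hv1⟩
    · rcases ihy with h2 | ⟨τ2, hs2, x2, hv2⟩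
      · left; rw [FreeMonoid.toList_mul, h1, h2]; rfl
      · right; exact ⟨τ2, hs2.trans (Nat.le_add_left _ _), x2, by
          rw [FreeMonoid.toList_mul, h1, hv2]; rfl⟩
    · rcases ihy with h2 | ⟨τ2, hs2, x2, hv2⟩
      · right; exact ⟨τ1, hs1.trans (Nat.le_add_right _ _), x1, by
          rw [FreeMonoid.toList_mul, h2, hv1, List.append_nil]⟩
      · right
        refine ⟨Sh.app τ1 τ2, ?_, (x1, x2), ?_⟩
        · simp only [Sh.size]; omega
        · simp only [H17WT.val, hv1, hv2, FreeMonoid.toList_mul]
  | @pow s x k _ ih =>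
    rcases ih with h1 | ⟨τ1, hs1, x1, hv1⟩
    · left; rw [toList_pow, h1]; simp
    · cases k with
      | zero => left; rw [toList_pow]; simp
      | succ k =>
        right
        refine ⟨Sh.pow τ1, ?_, (x1, k), ?_⟩
        · simp only [Sh.size]; omega
        · simp only [H17WT.val, hv1, toList_pow]

private lemma hom_flatMap {A B : Type} (g : FreeMonoid A →* FreeMonoid B) (y : FreeMonoid A) :
    FreeMonoid.toList (g y) =
      (FreeMonoid.toList y).flatMap (fun a => FreeMonoid.toList (g (FreeMonoid.of a))) := by
  induction y using FreeMonoid.inductionOn' with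
  | one => simp
  | of_mul a y ih =>
    rw [map_mul, FreeMonoid.toList_mul, ih, FreeMonoid.toList_of_mul, List.flatMap_cons]

private lemma map_inj_on {B : Type} (c : B → ℕ) : ∀ l1 l2 : List B,
    (∀ a ∈ l1, ∀ b ∈ l2, c a = c b → a = b) → l1.map c = l2.map c → l1 = l2
  | [], [], _, _ => rfl
  | [], b :: l, _, h => by simp at h
  | b :: l, [], _, h => by simp at h
  | a :: l1, b :: l2, hi, h => by
    rw [List.map_cons, List.map_cons, List.cons.injEq] at h
    rw [hi a (by simp) b (by simp) h.1, map_inj_on c l1 l2
      (fun a ha b hb => hi a (List.mem_cons_of_mem _ ha) b (List.mem_cons_of_mem _ hb)) h.2]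

/-- **Uniform test sets for languages of bounded power size.** -/
theorem result (n s : ℕ) :
    ∃ k : ℕ, ∀ (A B : Type) (φ : FreeMonoid (Fin n) →* FreeMonoid A) (L : Set (FreeMonoid A)),
      (∀ x ∈ L, ∃ y : FreeMonoid (Fin n), (∃ r ≤ s, PowSize r y) ∧ φ y = x) →
      ∃ F : Finset (FreeMonoid A), (↑F : Set (FreeMonoid A)) ⊆ L ∧ F.card ≤ k ∧
        ∀ x ∈ L, ∀ g h : FreeMonoid A →* FreeMonoid B, (∀ f ∈ F, g f = h f) → g x = h x := by
  classical
  obtain ⟨N, hN⟩ := bound_all n s
  refine ⟨N, fun A B φ L hL => ?_⟩
  obtain ⟨F', hF'L, hF'c, hF't⟩ := exists_test (X := FreeMonoid (Fin n)) (W := Pr n)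
    (fun y w => Agr (FreeMonoid.toList y) w) (fun y => ∃ r ≤ s, PowSize r y) N
    (by
      intro J y w hy hl
      refine hN J (fun j => FreeMonoid.toList (y j)) w (fun j hj => ?_) ⟨hl.1, hl.2⟩
      obtain ⟨r, hr, hp⟩ := hy j hj
      rcases shape_of hp with h0 | ⟨τ, hτ, x, hx⟩
      · exact Or.inl h0
      · exact Or.inr ⟨τ, hτ.trans hr, x, hx⟩)
    {y | (∃ r ≤ s, PowSize r y) ∧ φ y ∈ L} (fun y hy => hy.1)
  refine ⟨F'.image φ, ?_, Finset.card_image_le.trans hF'c, ?_⟩
  · intro z hz
    obtain ⟨y, hy, rfl⟩ := Finset.mem_image.mp (Finset.mem_coe.mp hz)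
    exact (hF'L hy).2
  · intro x hx g h hgh
    obtain ⟨y, hy, rfl⟩ := hL x hx
    -- all letters of the images
    let l : List B := (List.finRange n).flatMap (fun a =>
      FreeMonoid.toList (g (φ (FreeMonoid.of a))) ++ FreeMonoid.toList (h (φ (FreeMonoid.of a))))
    let c : B → ℕ := fun b => l.idxOf b
    have hmemg : ∀ z : FreeMonoid (Fin n), ∀ b ∈ FreeMonoid.toList (g (φ z)), b ∈ l := by
      intro z b hb
      have h1 := hom_flatMap (g.comp φ) z
      rw [MonoidHom.comp_apply] at h1
      rw [h1, List.mem_flatMap] at hb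
      obtain ⟨a, -, hb⟩ := hb
      rw [List.mem_flatMap]
      exact ⟨a, List.mem_finRange a, List.mem_append_left _ hb⟩
    have hmemh : ∀ z : FreeMonoid (Fin n), ∀ b ∈ FreeMonoid.toList (h (φ z)), b ∈ l := by
      intro z b hb
      have h1 := hom_flatMap (h.comp φ) z
      rw [MonoidHom.comp_apply] at h1
      rw [h1, List.mem_flatMap] at hb
      obtain ⟨a, -, hb⟩ := hb
      rw [List.mem_flatMap]
      exact ⟨a, List.mem_finRange a, List.mem_append_right _ hb⟩
    let w : Pr n := (fun a => (FreeMonoid.toList (g (φ (FreeMonoid.of a)))).map c,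
      fun a => (FreeMonoid.toList (h (φ (FreeMonoid.of a)))).map c)
    have hw1 : ∀ z : FreeMonoid (Fin n), (FreeMonoid.toList z).flatMap w.1 =
        (FreeMonoid.toList (g (φ z))).map c := by
      intro z
      have h1 := hom_flatMap (g.comp φ) z
      rw [MonoidHom.comp_apply] at h1
      rw [h1, List.map_flatMap]
      rfl
    have hw2 : ∀ z : FreeMonoid (Fin n), (FreeMonoid.toList z).flatMap w.2 =
        (FreeMonoid.toList (h (φ z))).map c := by
      intro z
      have h1 := hom_flatMap (h.comp φ) z
      rw [MonoidHom.comp_apply] at h1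
      rw [h1, List.map_flatMap]
      rfl
    have hagr := hF't w (fun z hz => by
      show (FreeMonoid.toList z).flatMap w.1 = (FreeMonoid.toList z).flatMap w.2
      rw [hw1, hw2, hgh (φ z) (Finset.mem_image_of_mem _ hz)]) y ⟨hy, hx⟩
    have hagr' : (FreeMonoid.toList y).flatMap w.1 = (FreeMonoid.toList y).flatMap w.2 := hagr
    rw [hw1, hw2] at hagr'
    apply FreeMonoid.toList.injective
    refine map_inj_on c _ _ ?_ hagr'
    intro a ha b hb hab
    exact (List.idxOf_inj (hmemg y a ha)).mp hab

end Pool.Agent.Results.MP_901665_lc.PowerExpressions
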